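import Pool.Agent.H57.AR.Targets

/-!
# All reducts, all arities: row LFTR, combination along an order of the places
-/

set_option autoImplicit false

namespace Pool.Agent.H55.AR

open Pool.Agent.H68.BP Pool.Agent.H58.SF Pool.Agent.H53.GC Pool.Agent.H53.NR Pool.Agent.H53.GR
open Pool.Agent.H57.AR
open Function

/-- The order given by `rk` has an enumeration. -/
theorem exists_enm {M k : ℕ} (rk : Fin k → ℕ) (hk : 1 ≤ k) (hM : k ≤ M) :
    ∃ x : (Σ n : Fin M, (Fin (n + 1) → Fin k) × (Fin k → Fin (n + 1))),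
      Enm (fun a b => rk a < rk b) x := by
  classical
  set s : Finset ℕ := Finset.univ.image rk with hs
  have hmem : ∀ a, rk a ∈ s := fun a => Finset.mem_image_of_mem _ (Finset.mem_univ a)
  have hpos : 0 < s.card := Finset.card_pos.2 ⟨rk ⟨0, hk⟩, hmem _⟩
  have hle : s.card ≤ k := by
    have := Finset.card_image_le (s := (Finset.univ : Finset (Fin k))) (f := rk)
    rwa [Finset.card_univ, Fintype.card_fin] at this
  obtain ⟨n, hn⟩ : ∃ n, s.card = n + 1 := ⟨s.card - 1, by omega⟩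
  have hnM : n < M := by omega
  let φ := s.orderIsoOfFin hn
  have hex : ∀ i : Fin (n + 1), ∃ a, rk a = (φ i : ℕ) := by
    intro i
    have h1 := (φ i).2
    obtain ⟨a, _, ha⟩ := Finset.mem_image.1 h1
    exact ⟨a, ha⟩
  choose e he using hex
  refine ⟨⟨⟨n, hnM⟩, e, fun a => φ.symm ⟨rk a, hmem a⟩⟩, ⟨fun a b => ?_, fun i => ?_⟩⟩
  · show rk a < rk b ↔ φ.symm ⟨rk a, hmem a⟩ < φ.symm ⟨rk b, hmem b⟩
    rw [OrderIso.lt_iff_lt]
    rfl
  · show φ.symm ⟨rk (e i), hmem (e i)⟩ = i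
    rw [OrderIso.symm_apply_eq]
    exact Subtype.ext (he i)

theorem pf_LFTR : T_LFTR := by
  intro ρ V 𝔹 M A W N rk hrk G ψ hN k z hk hM
  have h := exists_enm (M := M) (fun a : Fin k => rk (z a)) hk hM
  have hl : lft N k (fun a b => rk (z a) < rk (z b)) (fun a => pull 𝔹 (fun i => G a (z i))) =
      pull (val h.choose.1 (N fun a => ⟨h.choose.1,
        pull (pull 𝔹 (fun i => G a (z i))) h.choose.2.1⟩)) h.choose.2.2 := by
    unfold lft
    exact dif_pos h
  rw [hl]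
  have hspec := h.choose_spec
  set x := h.choose with hx
  have hmono : StrictMono (fun i => rk (z (x.2.1 i))) := by
    intro i j hij
    have h1 := (hspec.ord (x.2.1 i) (x.2.1 j)).2
    rw [hspec.rep, hspec.rep] at h1
    exact h1 hij
  have h2 := hN x.1 (fun i => z (x.2.1 i)) hmono
  have h3 : (N fun a => (⟨x.1, pull (pull 𝔹 (fun i => G a (z i))) x.2.1⟩ : Dm ρ M)) =
      ⟨x.1, pull 𝔹 (fun i => ψ (z (x.2.1 i)))⟩ := h2
  rw [h3]
  have h4 : val x.1 (⟨x.1, pull 𝔹 (fun i => ψ (z (x.2.1 i)))⟩ : Dm ρ M) =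
      pull 𝔹 (fun i => ψ (z (x.2.1 i))) := by
    unfold val
    exact dif_pos rfl
  rw [h4]
  have h5 : ∀ a, z (x.2.1 (x.2.2 a)) = z a := by
    intro a
    apply hrk
    have h6 : x.2.2 (x.2.1 (x.2.2 a)) = x.2.2 a := hspec.rep _
    have h7 := hspec.ord (x.2.1 (x.2.2 a)) a
    have h8 := hspec.ord a (x.2.1 (x.2.2 a))
    rw [h6] at h7 h8
    have h9 : ¬ rk (z (x.2.1 (x.2.2 a))) < rk (z a) := fun hh => lt_irrefl _ (h7.1 hh)
    have h10 : ¬ rk (z a) < rk (z (x.2.1 (x.2.2 a))) := fun hh => lt_irrefl _ (h8.1 hh)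
    omega
  funext l y
  show 𝔹 l (fun i => ψ (z (y i))) = 𝔹 l (fun i => ψ (z (x.2.1 (x.2.2 (y i)))))
  congr 1
  funext i
  rw [h5]

end Pool.Agent.H55.AR
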